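import Pool.Agent.H27.AP.Asm0
import Pool.Agent.H14.APR.CQ
import Pool.Agent.H14.APR.DLS
import Pool.Agent.H89.APR.FA
import Pool.Agent.H35.APR.FB
import Pool.Agent.H52.APR.FSQ
import Pool.Agent.H35.APR.LOG
import Pool.Agent.H19.APR.PIL
import Pool.Agent.H79.APR.PNB
import Pool.Agent.H89.APR.RA
import Pool.Agent.H52.APR.RAM
import Pool.Agent.H35.APR.RB
import Pool.Agent.H27.APR.RC
import Pool.Agent.H27.APR.RI
import Pool.Agent.H27.APR.SEL
import Pool.Agent.H52.APR.TRN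
import Pool.Agent.H35.APR.TUP
import Pool.Agent.H27.APR.UPB
import Pool.Agent.H27.APR.VAR
import Pool.Agent.H67.MTP.RH
import Pool.Agent.H27.MTP.GL

/-!
# MP_98b15b_nt: assembly
-/

set_option autoImplicit false

namespace Pool.Agent.H27.AP

theorem all : T_MAIN :=
  asm0 H14.APR.pf_DLS H52.APR.pf_RAM H52.APR.pf_FSQ H14.APR.pf_CQ H27.APR.pf_VAR
    (H67.MTP.pf_RH H27.MTP.GL.pf_GL) H27.APR.pf_SEL H27.APR.pf_UPB H35.APR.pf_TUP
    H35.APR.pf_LOG H19.APR.pf_PIL H79.APR.pf_PNB H89.APR.pf_RA H35.APR.pf_RB H27.APR.pf_RI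
    H27.APR.pf_RC H89.APR.pf_FA H52.APR.pf_TRN H35.APR.pf_FB H19.APR.pf_SM

end Pool.Agent.H27.AP
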