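import Pool.Agent.H27.AP.Targets

namespace Pool.Agent.H27.AP

theorem asm0 (DLS : T_DLS) (RAM : T_RAM) (FSQ : T_FSQ) (CQ : T_CQ)
    (VAR : T_DLS → T_RAM → T_FSQ → T_CQ → T_VAR) (RH : Pool.Agent.H31.MP.T_RH)
    (SEL : Pool.Agent.H31.MP.T_RH → T_SEL) (UPB : T_SEL → T_VAR → T_UPB) (TUP : T_TUP)
    (LOG : T_LOG) (PIL : T_PIL) (PNB : T_PNB) (RA : T_TUP → T_RA) (RB : T_LOG → T_PIL → T_RB)
    (RI : T_RI) (RC : T_UPB → T_RI → T_PIL → T_RC) (FA : T_RA → T_RB → T_RC → T_FA)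
    (TRN : T_TRN) (FB : T_FA → T_TRN → T_PNB → T_FB) (SM : T_TRN → T_SM) : T_MAIN :=
  main (FB (FA (RA TUP) (RB LOG PIL) (RC (UPB (SEL RH) (VAR DLS RAM FSQ CQ)) RI PIL)) TRN PNB)
    (SM TRN)

end Pool.Agent.H27.AP
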