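import Pool.Agent.H31.MP.Basic

/-!
# MP_98b15b_nt: the inequality `p (a+b+1) ≥ p a + p b` for almost all `a` and all small `b`

Definitions and targets of the board apr_modules. Page: H27_APR.md in the team store.
-/

set_option autoImplicit false

open Finset Real

namespace Pool.Agent.H27.AP

/-- the `n`-th prime, `p 1 = 2` -/
noncomputable def p (n : ℕ) : ℕ := Nat.nth Nat.Prime (n - 1)

/-- the number of primes in `(x, x + h]` -/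
def P (h x : ℕ) : ℕ := ((Ioc x (x + h)).filter Nat.Prime).card

/-- `e(r n / q)` -/
noncomputable def ee (r q n : ℕ) : ℂ := Complex.exp (2 * π * Complex.I * r * n / q)

/-- the reduced residues modulo `q` (`{0}` for `q = 1`) -/
def Rd (q : ℕ) : Finset ℕ := (range q).filter fun r => r.Coprime q

/-- the sum of the weights of the multiples of `q` -/
noncomputable def cq (w : ℕ → ℝ) (D q : ℕ) : ℝ := ∑ m ∈ (Icc 1 D).filter fun m => q ∣ m, w m / m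

/-- the weights `w` summed over the divisors of `n` -/
noncomputable def sw (w : ℕ → ℝ) (D n : ℕ) : ℝ := ∑ m ∈ Icc 1 D, if m ∣ n then w m else 0

/-! ## A. Sieve weights in almost all short intervals -/

/-- DLS: dual large sieve for the Farey fractions. -/
def T_DLS : Prop := ∀ (Q N : ℕ) (c : ℕ → ℕ → ℂ), 1 ≤ Q →
  ∑ n ∈ range N, ‖∑ q ∈ Icc 2 Q, ∑ r ∈ Rd q, c q r * ee r q n‖ ^ 2 ≤
    ((Q : ℝ) ^ 2 + 4 * π * N) * ∑ q ∈ Icc 2 Q, ∑ r ∈ Rd q, ‖c q r‖ ^ 2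

/-- RAM: expansion in additive characters. -/
def T_RAM : Prop := ∀ (w : ℕ → ℝ) (D n : ℕ),
  ((sw w D n : ℝ) : ℂ) = ∑ q ∈ Icc 1 D, (cq w D q : ℂ) * ∑ r ∈ Rd q, ee r q n

/-- FSQ: mean square of the exponential sums over an interval. -/
def T_FSQ : Prop := ∀ q h : ℕ, 2 ≤ q →
  ∑ r ∈ Rd q, ‖∑ i ∈ Icc 1 h, ee r q i‖ ^ 2 ≤ (q : ℝ) * h

/-- CQ: the coefficients. -/
def T_CQ : Prop := ∀ (w : ℕ → ℝ) (D : ℕ), 1 ≤ D →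
  (∀ m, |w m| ≤ (m.divisors.card : ℝ) ^ 2) →
  ∑ q ∈ Icc 1 D, cq w D q ^ 2 * q ≤ (1 + Real.log D) ^ 24

/-- VAR: the variance. -/
def T_VAR : Prop := ∀ (w : ℕ → ℝ) (D N h : ℕ), 1 ≤ D →
  (∀ m, |w m| ≤ (m.divisors.card : ℝ) ^ 2) →
  ∑ x ∈ range N, (∑ n ∈ Ioc x (x + h), sw w D n - h * cq w D 1) ^ 2 ≤
    ((D : ℝ) ^ 2 + 4 * π * N) * h * (1 + Real.log D) ^ 24

/-- SEL: Selberg's weights. -/
def T_SEL : Prop := ∀ R : ℝ, 2 ≤ R → ∃ w : ℕ → ℝ,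
  (∀ m, |w m| ≤ (m.divisors.card : ℝ) ^ 2) ∧ (∀ n : ℕ, 1 ≤ n → 0 ≤ sw w ⌊R ^ 2⌋₊ n) ∧
  (∀ n : ℕ, n.Prime → R < n → 1 ≤ sw w ⌊R ^ 2⌋₊ n) ∧ cq w ⌊R ^ 2⌋₊ 1 ≤ 1 / Real.log R

/-- UPB: few intervals with many primes. -/
def T_UPB : Prop := ∀ (R t : ℝ) (N h : ℕ), 2 ≤ R → 0 < t →
  (((range N).filter fun x => (h : ℝ) / Real.log R + t < P h x).card : ℝ) ≤
    R + 1 + (R ^ 4 + 4 * π * N) * h * (1 + 2 * Real.log R) ^ 24 / t ^ 2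

/-! ## B. Short intervals -/

/-- TUP: tuples of primes in very short intervals, crude sieve bound. -/
def T_TUP : Prop := ∀ r : ℕ, ∃ C : ℝ, 0 < C ∧ ∀ N h : ℕ, 2 ≤ N → 1 ≤ h →
  (((range N).filter fun x => x.Prime ∧ r ≤ P h x).card : ℝ) ≤
    C * ((h : ℝ) ^ r * (1 + Real.log h) ^ (r + 1)) * (N / Real.log N ^ (r + 1))

/-- LOG: intervals of logarithmic length. -/
def T_LOG : Prop := ∀ r : ℕ, ∃ C : ℝ, 0 < C ∧ ∀ N m : ℕ, 2 ≤ N → 1 ≤ m →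
  (((range N).filter fun x => m ≤ P ⌊Real.log N⌋₊ x).card : ℝ) ≤ C * (N / (m : ℝ) ^ r)

/-- PIL: lower bound for the number of primes. -/
def T_PIL : Prop := ∀ η : ℝ, 0 < η → ∃ h₀ : ℕ, ∀ h : ℕ, h₀ ≤ h →
  (1 - η) * (h / Real.log h) ≤ (Nat.primeCounting h : ℝ)

/-- PNB: upper bound for the `n`-th prime. -/
def T_PNB : Prop := ∃ C : ℝ, 1 ≤ C ∧ ∀ n : ℕ, 1 ≤ n → (p n : ℝ) ≤ C * n * (1 + Real.log n)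

/-! ## C. The three ranges -/

/-- RA: `y ≤ √(log N)`. -/
def T_RA : Prop := ∀ A : ℕ, ∃ C : ℝ, 0 < C ∧ ∀ N : ℕ, 2 ≤ N →
  (({x : ℕ | x < N ∧ x.Prime ∧ ∃ y : ℕ, y.Prime ∧ A ≤ Nat.primeCounting y ∧
    (y : ℝ) ^ 2 ≤ Real.log N ∧ Nat.primeCounting y + 1 ≤ P (y - 1) x}.ncard : ℕ) : ℝ) ≤
    C * (N / Real.log N ^ (A + 2))

/-- RB: `√(log N) < y ≤ (log N)^M`. -/
def T_RB : Prop := ∀ A M : ℕ, ∃ C : ℝ, 0 < C ∧ ∀ N : ℕ, 2 ≤ N →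
  (({x : ℕ | x < N ∧ ∃ y : ℕ, Real.log N < (y : ℝ) ^ 2 ∧ (y : ℝ) ≤ Real.log N ^ M ∧
    Nat.primeCounting y + 1 ≤ P y x}.ncard : ℕ) : ℝ) ≤ C * (N / Real.log N ^ (A + 2))

/-- RI: the choice of the constants. -/
def T_RI : Prop := ∀ δ : ℝ, 0 < δ → δ < 1 / 3 → ∃ κ η : ℝ, 0 < κ ∧ κ < 1 / 8 ∧ 0 < η ∧ η < 1 / 2 ∧
  ∀ θ : ℝ, 0 < θ → θ ≤ δ + η → 1 / ((1 + θ) / 4 - κ) + η ≤ (1 - η) / (1 + η) / θ

/-- RC: `(log N)^(A+30) < y ≤ N^δ`, `δ < 1/3`. -/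
def T_RC : Prop := ∀ (A : ℕ) (δ : ℝ), 0 < δ → δ < 1 / 3 → ∃ C : ℝ, 0 < C ∧ ∀ N : ℕ, 2 ≤ N →
  (({x : ℕ | x < N ∧ ∃ y : ℕ, Real.log N ^ (A + 30) < (y : ℝ) ∧ (y : ℝ) ≤ (N : ℝ) ^ δ ∧
    Nat.primeCounting y + 1 ≤ P y x}.ncard : ℕ) : ℝ) ≤ C * (N / Real.log N ^ (A + 2))

/-- FA: all ranges together. -/
def T_FA : Prop := ∀ (A : ℕ) (δ : ℝ), 0 < δ → δ < 1 / 3 → ∃ C : ℝ, 0 < C ∧ ∀ N : ℕ, 2 ≤ N →
  (({x : ℕ | x < N ∧ x.Prime ∧ ∃ y : ℕ, y.Prime ∧ A ≤ Nat.primeCounting y ∧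
    (y : ℝ) ≤ (N : ℝ) ^ δ ∧ Nat.primeCounting y + 1 ≤ P (y - 1) x}.ncard : ℕ) : ℝ) ≤
    C * (N / Real.log N ^ (A + 2))

/-! ## D. The theorem -/

/-- TRN: from the primes to the indices. -/
def T_TRN : Prop := ∀ a b : ℕ, 1 ≤ a → 1 ≤ b → p (a + b + 1) < p a + p b →
  (p a).Prime ∧ (p b).Prime ∧ Nat.primeCounting (p b) = b ∧
    Nat.primeCounting (p b) + 1 ≤ P (p b - 1) (p a)

/-- FB: the exceptional indices. -/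
def T_FB : Prop := ∀ (A : ℕ) (δ : ℝ), 0 < δ → δ < 1 / 3 → ∃ C : ℝ, ∀ N : ℕ, 2 ≤ N →
  (({a : ℕ | 1 ≤ a ∧ a ≤ N ∧ ∃ b : ℕ, 1 ≤ b ∧ A ≤ b ∧ (b : ℝ) ≤ (a : ℝ) ^ δ ∧
    p (a + b + 1) < p a + p b}.ncard : ℕ) : ℝ) ≤ C * (N / Real.log N ^ (A + 1))

/-- SM: the inequality for `b ≤ 12`. -/
def T_SM : Prop := ∀ a b : ℕ, 1 ≤ a → 1 ≤ b → b ≤ 12 → p a + p b ≤ p (a + b + 1)

/-- MAIN. -/
def T_MAIN : Prop :=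
  (∀ (A : ℕ) (δ : ℝ), 0 < δ → δ < 1 / 3 → ∃ C : ℝ, ∀ N : ℕ, 2 ≤ N →
    (({a : ℕ | 1 ≤ a ∧ a ≤ N ∧ ∃ b : ℕ, 1 ≤ b ∧ A ≤ b ∧ (b : ℝ) ≤ (a : ℝ) ^ δ ∧
      p (a + b + 1) < p a + p b}.ncard : ℕ) : ℝ) ≤ C * (N / Real.log N ^ (A + 1))) ∧
  ∀ δ : ℝ, 0 < δ → δ < 1 / 3 → ∃ C : ℝ, ∀ N : ℕ, 2 ≤ N →
    (({a : ℕ | 1 ≤ a ∧ a ≤ N ∧ ∃ b : ℕ, 1 ≤ b ∧ (b : ℝ) ≤ (a : ℝ) ^ δ ∧
      p (a + b + 1) < p a + p b}.ncard : ℕ) : ℝ) ≤ C * (N / Real.log N ^ 14)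

theorem main (hFB : T_FB) (hSM : T_SM) : T_MAIN := by
  refine ⟨hFB, fun δ h1 h2 => ?_⟩
  obtain ⟨C, hC⟩ := hFB 13 δ h1 h2
  refine ⟨C, fun N hN => ?_⟩
  refine le_trans ?_ (hC N hN)
  norm_cast
  refine Set.ncard_le_ncard ?_ ?_
  · rintro a ⟨a1, a2, b, b1, b2, b3⟩
    refine ⟨a1, a2, b, b1, ?_, b2, b3⟩
    by_contra hne
    have := hSM a b a1 b1 (by omega)
    omega
  · refine (Set.finite_Iic N).subset ?_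
    rintro a ⟨_, a2, _⟩
    exact a2

end Pool.Agent.H27.AP
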